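import Pool.Agent.H25.PG.Targets
import Pool.Agent.H94.PM.TL

/-!
# Row DE of the board pg_modules: the density of the set of exponents between the blocks
-/

set_option autoImplicit false

open Finset

namespace Pool.Agent.H58.PG

open Pool.Agent.H55.PM Pool.Agent.H25.PG Pool.Agent.H94.PM

theorem be_tb {n b : ℕ} : b ∈ be n ↔ n.testBit b = true := by
  rw [mem_be, Nat.mem_bitIndices]

theorem tb_ip {V : Set ℕ} {j b : ℕ} : (ip V j).testBit b = true ↔ (j.testBit b = true ∧ b ∉ V) := by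
  classical
  rw [← be_tb, ← be_tb, ip, be_sum, Finset.mem_filter]

theorem mem_SS {k : ℕ → ℕ} {j : ℕ} : j ∈ SS (E1 k) (EV V4) ↔ ip V4 j ∈ E1 k := by
  constructor
  · rintro ⟨e, he, f, hf, hs⟩
    have h := split_inj (ip_mem (V := V4) j) (ep_mem j) he.1 hf ((ip_add_ep j).trans hs.symm)
    rw [h.1]
    exact he
  · intro h
    exact ⟨ip V4 j, h, ep V4 j, ep_mem j, ip_add_ep j⟩

theorem ip_le {V : Set ℕ} (j : ℕ) : ip V j ≤ j := by
  have h := ip_add_ep (V := V) j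
  omega

theorem win {t b : ℕ} (h1 : 4 ^ t + 1 ≤ b) (h2 : b < 4 ^ t + 1 + t) : b ∉ V4 := by
  rintro ⟨s, rfl⟩
  have ht : t < 2 ^ t := Nat.lt_two_pow_self
  have ht2 : 2 ^ t ≤ 4 ^ t := Nat.pow_le_pow_left (by norm_num) t
  rcases Nat.lt_or_ge t s with h | h
  · have h3 : 4 ^ (t + 1) ≤ 4 ^ s := Nat.pow_le_pow_right (by norm_num) h
    rw [pow_succ] at h3
    omega
  · have h3 : 4 ^ s ≤ 4 ^ t := Nat.pow_le_pow_right (by norm_num) h
    omega

theorem ip_win (t j : ℕ) :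
    ip V4 j / 2 ^ (4 ^ t + 1) % 2 ^ t = j / 2 ^ (4 ^ t + 1) % 2 ^ t := by
  apply Nat.eq_of_testBit_eq
  intro i
  rw [Nat.testBit_mod_two_pow, Nat.testBit_mod_two_pow, Nat.testBit_div_two_pow,
    Nat.testBit_div_two_pow]
  by_cases hi : i < t
  · have h1 : i + (4 ^ t + 1) ∉ V4 := win (t := t) (by omega) (by omega)
    have h2 : (ip V4 j).testBit (i + (4 ^ t + 1)) = j.testBit (i + (4 ^ t + 1)) := by
      rw [Bool.eq_iff_iff, tb_ip]
      exact ⟨fun h => h.1, fun h => ⟨h, h1⟩⟩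
    rw [h2]
  · simp [hi]

/-- regular numbers -/
theorem reg {k : ℕ → ℕ} {t j : ℕ} (ht : 1 ≤ t) (h1 : 2 ^ (2 * 4 ^ t) ≤ ip V4 j)
    (h2 : j < 2 ^ (2 * 4 ^ (t + 1))) :
    j ∈ SS (E1 k) (EV V4) ↔ j / 2 ^ (4 ^ t + 1) % 2 ^ t < k t := by
  rw [mem_SS]
  have h3 : ip V4 j < 2 ^ (2 * 4 ^ (t + 1)) := lt_of_le_of_lt (ip_le j) h2
  constructor
  · rintro ⟨-, s, hs1, hs2, hs3, hs4⟩
    have e1 : 2 * 4 ^ s < 2 * 4 ^ (t + 1) :=
      (Nat.pow_lt_pow_iff_right (by norm_num)).mp (lt_of_le_of_lt hs2 h3)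
    have e2 : 2 * 4 ^ t < 2 * 4 ^ (s + 1) :=
      (Nat.pow_lt_pow_iff_right (by norm_num)).mp (lt_of_le_of_lt h1 hs3)
    have e3 : s < t + 1 := (Nat.pow_lt_pow_iff_right (by norm_num : 1 < 4)).mp (by omega)
    have e4 : t < s + 1 := (Nat.pow_lt_pow_iff_right (by norm_num : 1 < 4)).mp (by omega)
    have e5 : s = t := by omega
    subst e5
    rw [← ip_win]
    exact hs4
  · intro h
    refine ⟨ip_mem j, t, ht, h1, h3, ?_⟩
    rw [ip_win]
    exact h

/-- exceptional numbers -/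
theorem exc {t j : ℕ} (h0 : 2 ^ (2 * 4 ^ t) ≤ j) (h1 : ip V4 j < 2 ^ (2 * 4 ^ t))
    (h2 : j < 2 ^ (2 * 4 ^ (t + 1))) :
    j / 2 ^ (2 * 4 ^ t) = 2 ^ (2 * 4 ^ t) := by
  have key : ∀ i, (j / 2 ^ (2 * 4 ^ t)).testBit i = true → i = 2 * 4 ^ t := by
    intro i hi
    rw [Nat.testBit_div_two_pow] at hi
    have hV : i + 2 * 4 ^ t ∈ V4 := by
      by_contra hV
      have h3 : (ip V4 j).testBit (i + 2 * 4 ^ t) = true := tb_ip.mpr ⟨hi, hV⟩
      have h4 := Nat.ge_two_pow_of_testBit h3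
      have h5 : 2 ^ (2 * 4 ^ t) ≤ 2 ^ (i + 2 * 4 ^ t) :=
        Nat.pow_le_pow_right (by norm_num) (by omega)
      omega
    have h6 : i + 2 * 4 ^ t < 2 * 4 ^ (t + 1) :=
      (Nat.pow_lt_pow_iff_right (by norm_num)).mp
        (lt_of_le_of_lt (Nat.ge_two_pow_of_testBit hi) h2)
    obtain ⟨s, hs⟩ := hV
    rw [pow_succ] at h6
    have hpos : 0 < 4 ^ t := pow_pos (by norm_num) t
    have e1 : t < s := by
      by_contra hc
      have h7 : 4 ^ s ≤ 4 ^ t := Nat.pow_le_pow_right (by norm_num) (by omega)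
      omega
    have e2 : s < t + 2 := by
      by_contra hc
      have h7 : 4 ^ (t + 2) ≤ 4 ^ s := Nat.pow_le_pow_right (by norm_num) (by omega)
      rw [pow_add] at h7
      omega
    have e3 : s = t + 1 := by omega
    subst e3
    rw [pow_succ] at hs
    omega
  have hne : j / 2 ^ (2 * 4 ^ t) ≠ 0 := by
    have : 0 < j / 2 ^ (2 * 4 ^ t) := Nat.div_pos h0 (pow_pos (by norm_num) _)
    omega
  obtain ⟨i, hi⟩ := Nat.exists_testBit_of_ne_zero hne
  have hii := key i hi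
  subst hii
  apply Nat.eq_of_testBit_eq
  intro b
  rw [Nat.testBit_two_pow]
  rw [Bool.eq_iff_iff]
  constructor
  · intro hb
    rw [decide_eq_true_iff]
    exact (key b hb).symm
  · intro hb
    rw [decide_eq_true_iff] at hb
    rw [← hb]
    exact hi

theorem exc_count (S J : ℕ) : ((Ico S J).filter (fun j => j / S = S)).card * S ≤ J := by
  rcases Nat.eq_zero_or_pos S with h0 | hS
  · subst h0
    simp
  rcases Nat.lt_or_ge (S * S) J with h | h
  · have h1 : (Ico S J).filter (fun j => j / S = S) ⊆ Ico (S * S) (S * S + S) := by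
      intro j hj
      rw [Finset.mem_filter] at hj
      have h2 := Nat.div_add_mod j S
      have h3 := Nat.mod_lt j hS
      rw [hj.2] at h2
      rw [Finset.mem_Ico]
      omega
    have h2 := Finset.card_le_card h1
    rw [Nat.card_Ico] at h2
    have h3 : ((Ico S J).filter (fun j => j / S = S)).card ≤ S := by omega
    calc _ ≤ S * S := Nat.mul_le_mul_right S h3
      _ ≤ J := h.le
  · have h1 : (Ico S J).filter (fun j => j / S = S) = ∅ := by
      rw [Finset.filter_eq_empty_iff]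
      intro j hj hjS
      rw [Finset.mem_Ico] at hj
      have h2 := Nat.div_mul_le_self j S
      rw [hjS] at h2
      omega
    rw [h1]
    simp

/-- the periodic set -/
def pp (w t κ j : ℕ) : Prop := j / 2 ^ w % 2 ^ t < κ

instance (w t κ : ℕ) : DecidablePred (pp w t κ) := fun j => by unfold pp; infer_instance

theorem pp_periodic (w t κ : ℕ) : Function.Periodic (pp w t κ) (2 ^ (w + t)) := by
  intro j
  unfold pp
  rw [pow_add, Nat.add_mul_div_left _ _ (pow_pos (by norm_num) w), Nat.add_mod_right]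

theorem pp_count (w t κ : ℕ) (hκ : κ ≤ 2 ^ t) : Nat.count (pp w t κ) (2 ^ (w + t)) = κ * 2 ^ w := by
  rw [Nat.count_eq_card_filter_range]
  have h1 : (range (2 ^ (w + t))).filter (pp w t κ) = range (κ * 2 ^ w) := by
    ext j
    rw [Finset.mem_filter, Finset.mem_range, Finset.mem_range]
    unfold pp
    have hw : 0 < 2 ^ w := pow_pos (by norm_num) w
    constructor
    · rintro ⟨h1, h2⟩
      have h3 : j / 2 ^ w < 2 ^ t := by
        rw [Nat.div_lt_iff_lt_mul hw, mul_comm, ← pow_add]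
        exact h1
      rw [Nat.mod_eq_of_lt h3, Nat.div_lt_iff_lt_mul hw] at h2
      exact h2
    · intro h
      have h1 : j < 2 ^ (w + t) := by
        rw [pow_add, mul_comm]
        exact lt_of_lt_of_le h (Nat.mul_le_mul_right _ hκ)
      have h3 : j / 2 ^ w < 2 ^ t := by
        rw [Nat.div_lt_iff_lt_mul hw, mul_comm, ← pow_add]
        exact h1
      refine ⟨h1, ?_⟩
      rw [Nat.mod_eq_of_lt h3, Nat.div_lt_iff_lt_mul hw]
      exact h
  rw [h1, Finset.card_range]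

theorem pp_block (w t κ a : ℕ) (hκ : κ ≤ 2 ^ t) :
    Nat.count (pp w t κ) (a * 2 ^ (w + t)) = a * (κ * 2 ^ w) := by
  induction a with
  | zero => simp
  | succ a ih =>
    rw [Nat.succ_mul, Nat.count_add, ih, Nat.succ_mul]
    congr 1
    have h : (fun k => pp w t κ (a * 2 ^ (w + t) + k)) = pp w t κ := by
      funext k
      have := (pp_periodic w t κ).nat_mul a k
      rw [add_comm]
      exact this
    rw [← pp_count w t κ hκ, Nat.count_eq_card_filter_range, Nat.count_eq_card_filter_range]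
    congr 1
    refine Finset.filter_congr ?_
    intro k _
    rw [iff_iff_eq]
    exact congrFun h k

theorem pp_approx (w t κ J : ℕ) (hκ : κ ≤ 2 ^ t) :
    |(Nat.count (pp w t κ) J : ℝ) - (κ : ℝ) / 2 ^ t * J| ≤ 2 ^ (w + t) := by
  have hP : 0 < 2 ^ (w + t) := pow_pos (by norm_num) _
  obtain ⟨a, h1, h2⟩ : ∃ a, a * 2 ^ (w + t) ≤ J ∧ J ≤ (a + 1) * 2 ^ (w + t) := by
    refine ⟨J / 2 ^ (w + t), Nat.div_mul_le_self _ _, ?_⟩
    have h3 := Nat.div_add_mod J (2 ^ (w + t))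
    have h4 := Nat.mod_lt J hP
    rw [Nat.succ_mul, mul_comm (J / 2 ^ (w + t))]
    omega
  have c1 := Nat.count_monotone (pp w t κ) h1
  have c2 := Nat.count_monotone (pp w t κ) h2
  rw [pp_block w t κ _ hκ] at c1 c2
  have c1' : (a : ℝ) * (κ * 2 ^ w) ≤ Nat.count (pp w t κ) J := by exact_mod_cast c1
  have c2' : (Nat.count (pp w t κ) J : ℝ) ≤ (a + 1) * (κ * 2 ^ w) := by exact_mod_cast c2
  have h1' : (a : ℝ) * 2 ^ (w + t) ≤ J := by exact_mod_cast h1
  have h2' : (J : ℝ) ≤ (a + 1) * 2 ^ (w + t) := by exact_mod_cast h2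
  have hκ' : (κ : ℝ) ≤ 2 ^ t := by exact_mod_cast hκ
  have ht : (0 : ℝ) < 2 ^ t := by positivity
  have hw : (0 : ℝ) < 2 ^ w := by positivity
  have hc : (0 : ℝ) ≤ (κ : ℝ) / 2 ^ t := by positivity
  have e1 : (κ : ℝ) / 2 ^ t * (a * 2 ^ (w + t)) = a * (κ * 2 ^ w) := by
    rw [pow_add]; field_simp
  have e2 : (κ : ℝ) / 2 ^ t * ((a + 1) * 2 ^ (w + t)) = (a + 1) * (κ * 2 ^ w) := by
    rw [pow_add]; field_simp
  have f1 := mul_le_mul_of_nonneg_left h1' hc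
  have f2 := mul_le_mul_of_nonneg_left h2' hc
  rw [e1] at f1
  rw [e2] at f2
  have g1 : (κ : ℝ) * 2 ^ w ≤ 2 ^ (w + t) := by
    rw [pow_add, mul_comm ((2 : ℝ) ^ w)]
    exact mul_le_mul_of_nonneg_right hκ' hw.le
  rw [abs_le]
  constructor <;> nlinarith [g1, f1, f2, c1', c2']

theorem count_sub (p : ℕ → Prop) [DecidablePred p] {S J : ℕ} (h : S ≤ J) :
    Nat.count p J = Nat.count p S + ((Ico S J).filter p).card := by
  rw [Nat.count_eq_card_filter_range, Nat.count_eq_card_filter_range]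
  rw [← Finset.card_union_of_disjoint]
  · rw [← Finset.filter_union]
    congr 2
    rw [Finset.range_eq_Ico, Finset.range_eq_Ico, Finset.Ico_union_Ico_eq_Ico (Nat.zero_le S) h]
  · rw [Finset.disjoint_left]
    intro x hx hy
    have h1 := Finset.mem_range.mp (Finset.mem_filter.mp hx).1
    have h2 := Finset.mem_Ico.mp (Finset.mem_filter.mp hy).1
    omega

theorem pf_DE (hTI : T_TI) : T_DE := by
  classical
  intro k hk t J ht hSJ hJ
  have hdc : ∀ N, dc k N = Nat.count (fun j => j ∈ SS (E1 k) (EV V4)) N := by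
    intro N
    rw [Nat.count_eq_card_filter_range, dc, ← Set.ncard_coe_finset]
    congr 1
    ext x
    rw [Finset.mem_coe, Finset.mem_filter, Finset.mem_range]
    exact ⟨fun h => ⟨h.2, h.1⟩, fun h => ⟨h.2, h.1⟩⟩
  rw [hdc, hdc, count_sub _ hSJ]
  have hcard : (2 : ℕ) ^ (2 * 4 ^ t) ≤ J := hSJ
  -- the periodic set
  have hB := count_sub (pp (4 ^ t + 1) t (k t)) hSJ
  have hex := exc_count (2 ^ (2 * 4 ^ t)) J
  have hAB : ((Ico (2 ^ (2 * 4 ^ t)) J).filter (fun j => j ∈ SS (E1 k) (EV V4))).card ≤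
      ((Ico (2 ^ (2 * 4 ^ t)) J).filter (pp (4 ^ t + 1) t (k t))).card +
      ((Ico (2 ^ (2 * 4 ^ t)) J).filter (fun j => j / 2 ^ (2 * 4 ^ t) = 2 ^ (2 * 4 ^ t))).card := by
    refine (Finset.card_le_card ?_).trans (Finset.card_union_le _ _)
    intro j hj
    rw [Finset.mem_filter, Finset.mem_Ico] at hj
    rw [Finset.mem_union, Finset.mem_filter, Finset.mem_filter, Finset.mem_Ico]
    rcases Nat.lt_or_ge (ip V4 j) (2 ^ (2 * 4 ^ t)) with h | h
    · exact Or.inr ⟨hj.1, exc hj.1.1 h (by omega)⟩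
    · exact Or.inl ⟨hj.1, (reg (by omega) h (by omega)).mp hj.2⟩
  have hBA : ((Ico (2 ^ (2 * 4 ^ t)) J).filter (pp (4 ^ t + 1) t (k t))).card ≤
      ((Ico (2 ^ (2 * 4 ^ t)) J).filter (fun j => j ∈ SS (E1 k) (EV V4))).card +
      ((Ico (2 ^ (2 * 4 ^ t)) J).filter (fun j => j / 2 ^ (2 * 4 ^ t) = 2 ^ (2 * 4 ^ t))).card := by
    refine (Finset.card_le_card ?_).trans (Finset.card_union_le _ _)
    intro j hj
    rw [Finset.mem_filter, Finset.mem_Ico] at hj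
    rw [Finset.mem_union, Finset.mem_filter, Finset.mem_filter, Finset.mem_Ico]
    rcases Nat.lt_or_ge (ip V4 j) (2 ^ (2 * 4 ^ t)) with h | h
    · exact Or.inr ⟨hj.1, exc hj.1.1 h (by omega)⟩
    · exact Or.inl ⟨hj.1, (reg (by omega) h (by omega)).mpr hj.2⟩
  have hap := pp_approx (4 ^ t + 1) t (k t) J (hk t)
  -- the count at `S` is exact
  have h4t : t + 1 ≤ 4 ^ t ∧ 2 * t + 2 ≤ 4 ^ t := by
    have h1 : ∀ s : ℕ, 2 ≤ s → 2 * s + 2 ≤ 4 ^ s := by
      intro s hs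
      induction s, hs using Nat.le_induction with
      | base => norm_num
      | succ s hs ih => rw [pow_succ]; omega
    have h2 := h1 t ht
    exact ⟨by omega, h2⟩
  have hS : Nat.count (pp (4 ^ t + 1) t (k t)) (2 ^ (2 * 4 ^ t)) =
      2 ^ (2 * 4 ^ t - (4 ^ t + 1 + t)) * (k t * 2 ^ (4 ^ t + 1)) := by
    rw [← pp_block (4 ^ t + 1) t (k t) _ (hk t), ← pow_add]
    congr 2
    omega
  have hSr : (Nat.count (pp (4 ^ t + 1) t (k t)) (2 ^ (2 * 4 ^ t)) : ℝ) =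
      (k t : ℝ) / 2 ^ t * 2 ^ (2 * 4 ^ t) := by
    rw [hS]
    push_cast
    have e : (2 : ℝ) ^ (2 * 4 ^ t) = 2 ^ (2 * 4 ^ t - (4 ^ t + 1 + t)) * 2 ^ (4 ^ t + 1) * 2 ^ t := by
      rw [← pow_add, ← pow_add]
      congr 1
      omega
    rw [e]
    have ht' : (0 : ℝ) < 2 ^ t := by positivity
    field_simp
  -- real forms
  have hAB' : (((Ico (2 ^ (2 * 4 ^ t)) J).filter (fun j => j ∈ SS (E1 k) (EV V4))).card : ℝ) ≤
      ((Ico (2 ^ (2 * 4 ^ t)) J).filter (pp (4 ^ t + 1) t (k t))).card +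
      ((Ico (2 ^ (2 * 4 ^ t)) J).filter (fun j => j / 2 ^ (2 * 4 ^ t) = 2 ^ (2 * 4 ^ t))).card := by
    exact_mod_cast hAB
  have hBA' : (((Ico (2 ^ (2 * 4 ^ t)) J).filter (pp (4 ^ t + 1) t (k t))).card : ℝ) ≤
      ((Ico (2 ^ (2 * 4 ^ t)) J).filter (fun j => j ∈ SS (E1 k) (EV V4))).card +
      ((Ico (2 ^ (2 * 4 ^ t)) J).filter (fun j => j / 2 ^ (2 * 4 ^ t) = 2 ^ (2 * 4 ^ t))).card := by
    exact_mod_cast hBA
  have hB' : (Nat.count (pp (4 ^ t + 1) t (k t)) J : ℝ) =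
      Nat.count (pp (4 ^ t + 1) t (k t)) (2 ^ (2 * 4 ^ t)) +
      ((Ico (2 ^ (2 * 4 ^ t)) J).filter (pp (4 ^ t + 1) t (k t))).card := by
    exact_mod_cast hB
  have hex' : (((Ico (2 ^ (2 * 4 ^ t)) J).filter
      (fun j => j / 2 ^ (2 * 4 ^ t) = 2 ^ (2 * 4 ^ t))).card : ℝ) * 2 ^ (2 * 4 ^ t) ≤ J := by
    exact_mod_cast hex
  have hSJ' : (2 : ℝ) ^ (2 * 4 ^ t) ≤ J := by exact_mod_cast hSJ
  push_cast
  generalize (((Ico (2 ^ (2 * 4 ^ t)) J).filter (fun j => j ∈ SS (E1 k) (EV V4))).card : ℝ) = A at *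
  generalize (((Ico (2 ^ (2 * 4 ^ t)) J).filter (pp (4 ^ t + 1) t (k t))).card : ℝ) = B at *
  generalize (((Ico (2 ^ (2 * 4 ^ t)) J).filter
      (fun j => j / 2 ^ (2 * 4 ^ t) = 2 ^ (2 * 4 ^ t))).card : ℝ) = X at *
  have ht' : (0 : ℝ) < 2 ^ t := by positivity
  have hS0 : (0 : ℝ) < 2 ^ (2 * 4 ^ t) := by positivity
  have hX : X * 2 ^ t * 2 ≤ J := by
    have h1 : (2 : ℝ) ^ t * 2 ≤ 2 ^ (2 * 4 ^ t) := by
      rw [← pow_succ]
      exact pow_le_pow_right₀ (by norm_num) (by omega)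
    have hX0 : 0 ≤ X ∨ X < 0 := le_or_gt 0 X
    rcases hX0 with h0 | h0
    · calc X * 2 ^ t * 2 = X * (2 ^ t * 2) := by ring
        _ ≤ X * 2 ^ (2 * 4 ^ t) := mul_le_mul_of_nonneg_left h1 h0
        _ ≤ J := hex'
    · have : (0 : ℝ) ≤ J := Nat.cast_nonneg J
      have : X * 2 ^ t < 0 := mul_neg_of_neg_of_pos h0 ht'
      linarith
  have hP : (2 : ℝ) ^ (4 ^ t + 1 + t) * 2 ^ t * 2 ≤ J := by
    refine le_trans ?_ hSJ'
    rw [← pow_add, ← pow_succ]
    exact pow_le_pow_right₀ (by norm_num) (by omega)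
  rw [abs_le] at hap
  rw [abs_le]
  have hgoal : X + 2 ^ (4 ^ t + 1 + t) ≤ J / 2 ^ t := by
    rw [le_div_iff₀ ht']
    nlinarith
  have hmul : (k t : ℝ) / 2 ^ t * (J - 2 ^ (2 * 4 ^ t)) =
      (k t : ℝ) / 2 ^ t * J - (k t : ℝ) / 2 ^ t * 2 ^ (2 * 4 ^ t) := by ring
  rw [hmul]
  constructor <;> linarith [hap.1, hap.2]

end Pool.Agent.H58.PG
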