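import Pool.Agent.H25.PG.Targets

/-!
# Row PB of the board pg_modules: the partition function of a finite set
-/

set_option autoImplicit false

open Finset

namespace Pool.Agent.H58.PG

open Pool.Agent.H55.PM Pool.Agent.H25.PG

theorem pow_uniq {g b b' e e' : ℕ} (hb : 0 < b) (hbg : b < g)
    (h : b * g ^ e = b' * g ^ e') (hb' : 0 < b') : ¬ e < e' := by
  intro hlt
  have hg : 0 < g := lt_trans hb hbg
  obtain ⟨d, rfl⟩ : ∃ d, e' = e + 1 + d := ⟨e' - (e + 1), by omega⟩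
  have h1 : b * g ^ e = b' * g ^ d * g * g ^ e := by rw [h, pow_add, pow_add]; ring
  have h2 : b = b' * g ^ d * g := Nat.eq_of_mul_eq_mul_right (pow_pos hg e) h1
  have h3 : 1 ≤ b' * g ^ d := Nat.mul_pos hb' (pow_pos hg d)
  have h4 : g ≤ b' * g ^ d * g := Nat.le_mul_of_pos_left g h3
  omega

theorem pc_one (hU : T_U) (m : ℕ) : pc {1} (Set.Ioi 0) m = 1 := by
  classical
  have h := hU 2 {0} Set.univ le_rfl (by
    intro e he e' he' f _ f' _ _
    rw [Set.mem_singleton_iff.mp he, Set.mem_singleton_iff.mp he']) m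
  have h1 : PA 2 {0} = {1} := by
    ext a
    constructor
    · rintro ⟨e, he, rfl⟩
      rw [Set.mem_singleton_iff.mp he]
      rfl
    · intro ha
      exact ⟨0, rfl, by rw [Set.mem_singleton_iff.mp ha]; rfl⟩
  have h2 : PM 2 Set.univ = Set.Ioi 0 := by
    ext a
    constructor
    · rintro ⟨ha, -⟩
      exact ha
    · intro ha
      exact ⟨ha, fun j hj => absurd (Set.mem_univ j) hj⟩
  have h3 : m ∈ DS 2 (SS {0} Set.univ) := by
    intro j hj
    exact absurd ⟨0, rfl, j, Set.mem_univ j, zero_add j⟩ hj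
  rw [h1, h2] at h
  rw [h]
  simp only [h3, if_true]

theorem pc_tile (hU : T_U) {g : ℕ} {E F : Set ℕ} (hg : 2 ≤ g) (hT : Tile E F) (m : ℕ) :
    pc (PA g E) (PM g F) m = 1 := by
  classical
  have h := hU g E F hg (by
    intro e he e' he' f hf f' hf' hs
    obtain ⟨p, -, hp⟩ := hT (e + f)
    have h1 := hp (e, f) ⟨he, hf, rfl⟩
    have h2 := hp (e', f') ⟨he', hf', hs.symm⟩
    exact congrArg Prod.fst (h1.trans h2.symm)) m
  have h3 : m ∈ DS g (SS E F) := by
    intro j hj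
    obtain ⟨p, hp, -⟩ := hT j
    exact absurd ⟨p.1, hp.1, p.2, hp.2.1, hp.2.2⟩ hj
  rw [h]
  simp only [h3, if_true]

theorem pf_PB (hCV : T_CV) (hSC : T_SC) (hU : T_U) : Pool.Agent.H25.PG.T_PB := by
  classical
  intro g E F hg hT B
  have hg0 : 0 < g := by omega
  induction B using Finset.induction_on with
  | empty =>
    intro _ n
    have h1 : {c : ℕ | ∃ b ∈ (∅ : Finset ℕ), ∃ e ∈ E, c = b * g ^ e} = ∅ := by
      ext c
      constructor
      · rintro ⟨b, hb, -⟩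
        exact absurd hb (Finset.notMem_empty b)
      · intro hc
        exact absurd hc (Set.notMem_empty c)
    rw [h1, Finset.coe_empty]
    have h2 : ∀ M M' : Set ℕ, PS ∅ M n ⊆ PS ∅ M' n := by
      intro M M' p hp a ha
      exact absurd (hp a ha).1 (Set.notMem_empty a)
    unfold pc
    rw [Set.Subset.antisymm (h2 (PM g F) (Set.Ioi 0)) (h2 (Set.Ioi 0) (PM g F))]
  | insert b B hbB ih =>
    intro hB n
    have hB' : ∀ b ∈ B, 0 < b ∧ b < g := fun c hc => hB c (Finset.mem_insert_of_mem hc)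
    have hb := hB b (Finset.mem_insert_self b B)
    have ih' := ih hB'
    have hPA : ∀ a ∈ PA g E, 0 < a := by
      rintro a ⟨e, -, rfl⟩
      exact pow_pos hg0 e
    have hone : ∀ a ∈ ({1} : Set ℕ), 0 < a := by
      intro a ha
      rw [Set.mem_singleton_iff.mp ha]
      exact Nat.one_pos
    have e1 : {c : ℕ | ∃ b' ∈ insert b B, ∃ e ∈ E, c = b' * g ^ e} =
        {c | ∃ a ∈ PA g E, c = b * a} ∪ {c | ∃ b' ∈ B, ∃ e ∈ E, c = b' * g ^ e} := by
      ext c
      constructor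
      · rintro ⟨b', hb', e, he, rfl⟩
        rcases Finset.mem_insert.mp hb' with rfl | hb'
        · exact Or.inl ⟨g ^ e, ⟨e, he, rfl⟩, rfl⟩
        · exact Or.inr ⟨b', hb', e, he, rfl⟩
      · rintro (⟨a, ⟨e, he, rfl⟩, rfl⟩ | ⟨b', hb', e, he, rfl⟩)
        · exact ⟨b, Finset.mem_insert_self b B, e, he, rfl⟩
        · exact ⟨b', Finset.mem_insert_of_mem hb', e, he, rfl⟩
    have e2 : ((insert b B : Finset ℕ) : Set ℕ) = {c | ∃ a ∈ ({1} : Set ℕ), c = b * a} ∪ (B : Set ℕ) := by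
      ext c
      rw [Finset.mem_coe, Finset.mem_insert]
      constructor
      · rintro (rfl | hc)
        · exact Or.inl ⟨1, rfl, (mul_one c).symm⟩
        · exact Or.inr (Finset.mem_coe.mpr hc)
      · rintro (⟨a, ha, rfl⟩ | hc)
        · left
          rw [Set.mem_singleton_iff.mp ha, mul_one]
        · exact Or.inr (Finset.mem_coe.mp hc)
    have p1 : ∀ a ∈ {c : ℕ | ∃ a ∈ PA g E, c = b * a}, 0 < a := by
      rintro a ⟨a', ha', rfl⟩
      exact Nat.mul_pos hb.1 (hPA a' ha')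
    have p2 : ∀ a ∈ {c : ℕ | ∃ b' ∈ B, ∃ e ∈ E, c = b' * g ^ e}, 0 < a := by
      rintro a ⟨b', hb', e, -, rfl⟩
      exact Nat.mul_pos (hB' b' hb').1 (pow_pos hg0 e)
    have p3 : ∀ a ∈ {c : ℕ | ∃ a ∈ ({1} : Set ℕ), c = b * a}, 0 < a := by
      rintro a ⟨a', ha', rfl⟩
      exact Nat.mul_pos hb.1 (hone a' ha')
    have p4 : ∀ a ∈ (B : Set ℕ), 0 < a := fun a ha => (hB' a (Finset.mem_coe.mp ha)).1
    have d1 : Disjoint {c : ℕ | ∃ a ∈ PA g E, c = b * a}
        {c : ℕ | ∃ b' ∈ B, ∃ e ∈ E, c = b' * g ^ e} := by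
      rw [Set.disjoint_left]
      rintro c ⟨a, ⟨e, he, rfl⟩, rfl⟩ ⟨b', hb', e', he', h⟩
      have hbb := hB' b' hb'
      have n1 := pow_uniq hb.1 hb.2 h hbb.1
      have n2 := pow_uniq hbb.1 hbb.2 h.symm hb.1
      have hee : e = e' := by omega
      subst hee
      have : b = b' := Nat.eq_of_mul_eq_mul_right (pow_pos hg0 e) h
      subst this
      exact hbB hb'
    have d2 : Disjoint {c : ℕ | ∃ a ∈ ({1} : Set ℕ), c = b * a} (B : Set ℕ) := by
      rw [Set.disjoint_left]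
      rintro c ⟨a, ha, rfl⟩ hc
      rw [Set.mem_singleton_iff.mp ha, mul_one] at hc
      exact hbB (Finset.mem_coe.mp hc)
    rw [e1, e2, hCV _ _ _ n p1 p2 d1, hCV _ _ _ n p3 p4 d2]
    refine Finset.sum_congr rfl ?_
    intro x _
    rw [hSC _ _ b x.1 hb.1 hPA, hSC _ _ b x.1 hb.1 hone, pc_tile hU hg hT, pc_one hU, ih' x.2]

end Pool.Agent.H58.PG
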